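import Pool.Agent.NNe.Chk
import Pool.Agent.NNe.Slots

set_option linter.all false
set_option maxRecDepth 1000000
namespace Pool.Agent.NNr.R11_4_6_7

open Pool.Agent.NNe

noncomputable def SI0_0 : Nat := (nat_lit 0x300c0300c0300c0300802008020080200802004010040100000)
noncomputable def SW0_0 : Nat := (nat_lit 0x14009804802200d002800402000c0058028008003001000001e009004001c01c006)
noncomputable def RV0_0 : Nat := (nat_lit 0x28a00820800720600a18400d08c0c008c0cb08c01708c04320601b18402618201608c03118402910000208c03808c06108c04c18403010000708c08308c08e)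
noncomputable def CO0_0 : Nat := (nat_lit 0x2a80502a80402a80302a80202a7460297860290c60269c60265430265420265410255860255820255800251c6016ac6016646016642016640012b06012746)
noncomputable def Y0_0_0_1 : Nat := (nat_lit 0x3c0000000000600000000003c00000000006)
noncomputable def Y0_0_2_3 : Nat := (nat_lit 0x1fc0000000004000000000001c0000000000000000000003c0000000000e00000000003c0000000000e0000000001f00000000004c0000000000300000000000c0000000000f0000000000000000000001f000000000040)
noncomputable def C0_0 : Cd := (Cd.mk (nat_lit 21) (nat_lit 5) (nat_lit 1040) SI0_0 SW0_0 RV0_0 CO0_0 (Sl.cons (Sd.mk (nat_lit 4) (nat_lit 4) (nat_lit 0) (nat_lit 2) (Sb.cons (nat_lit 8) (nat_lit 0) (nat_lit 2) Sb.nil) (Bl.r Y0_0_0_1 (nat_lit 1) Bl.nil)) (Sl.cons (Sd.mk (nat_lit 5) (nat_lit 4) (nat_lit 2) (nat_lit 4) (Sb.cons (nat_lit 8) (nat_lit 0) (nat_lit 4) Sb.nil) (Bl.c Y0_0_0_1 (nat_lit 4) (nat_lit 0) Bl.nil)) (Sl.cons (Sd.mk (nat_lit 9) (nat_lit 8) (nat_lit 6) (nat_lit 8) (Sb.cons (nat_lit 4) (nat_lit 0) (nat_lit 4)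 (Sb.cons (nat_lit 8) (nat_lit 4) (nat_lit 4) Sb.nil)) (Bl.r Y0_0_2_3 (nat_lit 3) Bl.nil)) (Sl.cons (Sd.mk (nat_lit 10) (nat_lit 8) (nat_lit 14) (nat_lit 7) (Sb.cons (nat_lit 4) (nat_lit 0) (nat_lit 2) (Sb.cons (nat_lit 8) (nat_lit 2) (nat_lit 5) Sb.nil)) (Bl.c Y0_0_2_3 (nat_lit 16) (nat_lit 2) Bl.nil)) Sl.nil)))))
noncomputable def SI0_1 : Nat := (nat_lit 0x300c0300c0300c02008020080200802008020080200401000000000000000)
noncomputable def SW0_1 : Nat := (nat_lit 0x1800b80580240070028054022010007803800c004001800800200000a003402600c0058028012008)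
noncomputable def RV0_1 : Nat := (nat_lit 0x20801018403310000a08c05408c05c08c04f08c09928a00020800020600018400008c0a308c00028a00320600418400418200008c0c508c07108c09388c021a8a00ca0600f984016982008)
noncomputable def CO0_1 : Nat := (nat_lit 0x156840156820156800152c6014ac60142c6011786011005011004011003011002010b860100460100450100430100420100410097860092c6001786001106001105001103001102001101)
noncomputable def Y0_1_1_0 : Nat := (nat_lit 0xdc000000000000000000000dc00000000000)
noncomputable def Y0_1_2_3 : Nat := (nat_lit 0xfc000000000000000000000000000000000000000000001c0000000000700000000001c0000000000000000000003c000000000000000000000f0000000000000000000000f00000000002800000000000000000000000000000000010000000000000000000000300000000000800000000003000000000000)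
noncomputable def C0_1 : Cd := (Cd.mk (nat_lit 25) (nat_lit 6) (nat_lit 81) SI0_1 SW0_1 RV0_1 CO0_1 (Sl.cons (Sd.mk (nat_lit 0) (nat_lit 0) (nat_lit 0) (nat_lit 6) (Sb.cons (nat_lit 4) (nat_lit 0) (nat_lit 6) Sb.nil) (Bl.c Y0_1_1_0 (nat_lit 4) (nat_lit 1) Bl.nil)) (Sl.cons (Sd.mk (nat_lit 2) (nat_lit 0) (nat_lit 6) (nat_lit 2) (Sb.cons (nat_lit 4) (nat_lit 0) (nat_lit 2) Sb.nil) (Bl.r Y0_1_1_0 (nat_lit 0) Bl.nil)) (Sl.cons (Sd.mk (nat_lit 4) (nat_lit 4) (nat_lit 8) (nat_lit 11) (Sb.cons (nat_lit 0) (nat_lit 0) (nat_lit 6) (Sb.cons (nat_lit 4) (nat_lit 6) (nat_lit 5) Sb.nil)) (Bl.r Y0_1_2_3 (nat_lit 3) Bl.nil)) (Sl.cons (Sd.mk (nat_lit 5) (nat_lit 4) (nat_lit 19) (nat_lit 6) (Sb.cons (nat_lit 0) (nat_lit 0) (nat_lit 2) (Sb.cons (nat_lit 4) (nat_lit 2) (nat_lit 4) Sb.nil)) (Bl.c Y0_1_2_3 (nat_lit 22) (nat_lit 2) Bl.nil)) Sl.nil)))))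
noncomputable def SI0_2 : Nat := (nat_lit 0x14050140501405014050140501404010040100401004010040100300c0300c0300c0300c0300c020080200802008020080200802008020040100401004010040100401000000000000000000000000000000)
noncomputable def SW0_2 : Nat := (nat_lit 0x8204001f80f806c02c011005402801300580f406a03401980ac054029010804801403c01900c4060028013809804001100480ec05e02500f807803a01c008002000e006002801007403901c00b804801b007803801a00301b80b404601a00c806002e0160060008002000)
noncomputable def RV0_2 : Nat := (nat_lit 0x28a00920800820600b18400e08c0c108c0cc08c01808c01120800b18401308c01408c04420601c18402718201708c03218402a10000308c03908c04008c03508c06208c04d18403110000820801118403410000b08c05508c05d08c05008c08408c08f08c09a28a00120800120600118400108c0a408c00128a00420600518400518200108c06820801518403808c0bc08c0c608c07220801918403e10001108c06d08c07f08c08a08c09488c022a8a00da0601098401798200908c09ea0601498401c98200e)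
noncomputable def CO0_2 : Nat := (nat_lit 0x2a80502a80402a80302a80202a7460297860290c60288860288840288820280c60269c60265430265420265410255860255820255800251c60249c60241c6016ac60166460166420166400156840156820156800152c6014ac60142c6012b06012746011786011005011004011003011002010b8601004601004501004301004201004100aa0600aa0400aa0200a7460097860092c6008a84008a82008a800082c6002b06002746001786001106001105001103001102001101000b86000143000142000141)
noncomputable def Y0_2_1_0 : Nat := (nat_lit 0x3dfc00000000044000000003c2000000000100000000003c2000000000000000000003dfc00000000000000000003dfc00000000000000000003dfc00000000000000000003c0000000000100000000003c0000000000000000000003cc000000000e30000000003dc000000000000)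
noncomputable def Y0_2_2_3 : Nat := (nat_lit 0xffc00000000000000000000ffc00000000000000000000f0c0000000000000000000000000000000000000000000c0c00000000303000000000c0c00000000100000000000d0c00000000000000000000ffc00000000000000000000ffc0000000006800000000000000000000000000000000c1c00000000100000000000d3c00000000048000000000d3c00000000000)
noncomputable def Y0_2_4_5 : Nat := (nat_lit 0xfc000000000000000000000e4000000000190000000000e4000000000000000000000e400000000000000000000ffc000000001000000000001e4000000000000000000003ec00000000008000000000ffc00000000100000000000ffc00000000100000000000ffc00000000100)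
noncomputable def C0_2 : Cd := (Cd.mk (nat_lit 66) (nat_lit 6) (nat_lit 546) SI0_2 SW0_2 RV0_2 CO0_2 (Sl.cons (Sd.mk (nat_lit 0) (nat_lit 0) (nat_lit 0) (nat_lit 12) (Sb.cons (nat_lit 0) (nat_lit 0) (nat_lit 4) (Sb.cons (nat_lit 4) (nat_lit 4) (nat_lit 6) (Sb.cons (nat_lit 8) (nat_lit 10) (nat_lit 2) Sb.nil))) (Bl.c Y0_2_1_0 (nat_lit 20) (nat_lit 1) Bl.nil)) (Sl.cons (Sd.mk (nat_lit 2) (nat_lit 0) (nat_lit 12) (nat_lit 10) (Sb.cons (nat_lit 0) (nat_lit 0) (nat_lit 4) (Sb.cons (nat_lit 4) (nat_lit 4) (nat_lit 2) (Sb.cons (nat_lit 8) (nat_lit 6) (nat_lit 4) Sb.nil))) (Bl.r Y0_2_1_0 (nat_lit 0) Bl.nil)) (Sl.cons (Sd.mk (nat_lit 4) (nat_lit 4) (nat_lit 22) (nat_lit 13) (Sb.cons (nat_lit 0) (nat_lit 0) (nat_lit 6) (Sb.cons (nat_lit 4) (nat_lit 6) (nat_lit 5) (Sb.cons (nat_lit 8) (nat_lit 11) (nat_lit 2) Sb.nil))) (Bl.r Y0_2_2_3 (nat_lit 3) Bl.nil)) (Sl.cons (Sd.mk (nat_lit 5) (nat_lit 4) (nat_lit 35) (nat_lit 10) (Sb.cons (nat_lit 0) (nat_lit 0) (nat_lit 2) (Sb.cons (nat_lit 4) (nat_lit 2) (nat_lit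 4) (Sb.cons (nat_lit 8) (nat_lit 6) (nat_lit 4) Sb.nil))) (Bl.c Y0_2_2_3 (nat_lit 26) (nat_lit 2) Bl.nil)) (Sl.cons (Sd.mk (nat_lit 9) (nat_lit 8) (nat_lit 45) (nat_lit 10) (Sb.cons (nat_lit 0) (nat_lit 0) (nat_lit 2) (Sb.cons (nat_lit 4) (nat_lit 2) (nat_lit 4) (Sb.cons (nat_lit 8) (nat_lit 6) (nat_lit 4) Sb.nil))) (Bl.r Y0_2_4_5 (nat_lit 5) Bl.nil)) (Sl.cons (Sd.mk (nat_lit 10) (nat_lit 8) (nat_lit 55) (nat_lit 11) (Sb.cons (nat_lit 0) (nat_lit 0) (nat_lit 4) (Sb.cons (nat_lit 4) (nat_lit 4) (nat_lit 2) (Sb.cons (nat_lit 8) (nat_lit 6) (nat_lit 5) Sb.nil))) (Bl.c Y0_2_4_5 (nat_lit 20) (nat_lit 4) Bl.nil)) Sl.nil)))))))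
noncomputable def SI0_3 : Nat := (nat_lit 0xc0300c0300c03008020080200802008020080100401004010040000000000000000000000)
noncomputable def SW0_3 : Nat := (nat_lit 0x3a01c00d805c01c00800d005802a014006801c00c005002006402600c0058028006018009004402000f0048008002000)
noncomputable def RV0_3 : Nat := (nat_lit 0x20801218403510000c08c05608c05e08c05108c09b20800220600218400208c0a508c00220600618400618200208c0c708c07320801a18403f10001208c06e08c09588c023a0601198401898200a08c09fa0601598401d98200f)
noncomputable def CO0_3 : Nat := (nat_lit 0x156840156820156800152c6014ac60142c6011786011004011003011002010b860100460100430100420100410097860092c6008a84008a82008a800082c6001786001106001103001102001101000b86000143000142000141)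
noncomputable def Y0_3_1_0 : Nat := (nat_lit 0x6ec000000000800000000006ec0000000012a0000000000000000000000000000000062000000000080000000000620000000000000000000006ec0000000012a)
noncomputable def Y0_3_2_3 : Nat := (nat_lit 0x7c00000000007000000000000000000000000000000000000000000000000000000001c0000000000700000000007c0000000000700000000007c000000000170000000000000000000000000000000001c0000000000700000000001c00000000000)
noncomputable def C0_3 : Cd := (Cd.mk (nat_lit 30) (nat_lit 7) (nat_lit 52) SI0_3 SW0_3 RV0_3 CO0_3 (Sl.cons (Sd.mk (nat_lit 0) (nat_lit 0) (nat_lit 0) (nat_lit 9) (Sb.cons (nat_lit 0) (nat_lit 0) (nat_lit 4) (Sb.cons (nat_lit 4) (nat_lit 4) (nat_lit 5) Sb.nil)) (Bl.c Y0_3_1_0 (nat_lit 12) (nat_lit 1) Bl.nil)) (Sl.cons (Sd.mk (nat_lit 2) (nat_lit 0) (nat_lit 9) (nat_lit 6) (Sb.cons (nat_lit 0) (nat_lit 0) (nat_lit 4) (Sb.cons (nat_lit 4) (nat_lit 4) (nat_lit 2) Sb.nil)) (Bl.r Y0_3_1_0 (nat_lit 0) Bl.nil)) (Sl.cons (Sd.mk (nat_lit 4) (nat_lit 4) (nat_lit 15) (nat_lit 9) (Sb.cons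 (nat_lit 0) (nat_lit 0) (nat_lit 5) (Sb.cons (nat_lit 4) (nat_lit 5) (nat_lit 4) Sb.nil)) (Bl.r Y0_3_2_3 (nat_lit 3) Bl.nil)) (Sl.cons (Sd.mk (nat_lit 5) (nat_lit 4) (nat_lit 24) (nat_lit 6) (Sb.cons (nat_lit 0) (nat_lit 0) (nat_lit 2) (Sb.cons (nat_lit 4) (nat_lit 2) (nat_lit 4) Sb.nil)) (Bl.c Y0_3_2_3 (nat_lit 18) (nat_lit 2) Bl.nil)) Sl.nil)))))
noncomputable def SI0_4 : Nat := (nat_lit 0xc0300c0300c0300c0300802008020080200401004010040100401000000000000000)
noncomputable def SW0_4 : Nat := (nat_lit 0xd8068032013006803001600500c0048022010005001002e01600a803c012008003800c02800e0030008002000)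
noncomputable def RV0_4 : Nat := (nat_lit 0x20800920600c18400f08c0c208c01220800c18401408c01508c04520601d18402818201808c04108c03608c06920801618403908c0bd20801b18404010001308c06f08c08008c08b08c0a0a0601698401e982010)
noncomputable def CO0_4 : Nat := (nat_lit 0x2a80402a80302a80202a7460288860288840288820280c60269c60265430265420265410249c60241c600aa0600aa0400aa0200a746008a84008a82008a800082c6002b06002746000b86000143000142000141)
noncomputable def Y0_4_1_0 : Nat := (nat_lit 0xec0000000003b000000000000000000000000000000000e0000000000000000000000ec00000000000000000000000000000000000000000000e0000000000000000000000e0000000000000000000000ec0000000003a)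
noncomputable def Y0_4_2_3 : Nat := (nat_lit 0x2c0000000000a0000000000000000000000000000000002400000000009000000000024000000000090000000000ec0000000003a0000000000ec0000000003a)
noncomputable def C0_4 : Cd := (Cd.mk (nat_lit 28) (nat_lit 7) (nat_lit 517) SI0_4 SW0_4 RV0_4 CO0_4 (Sl.cons (Sd.mk (nat_lit 0) (nat_lit 0) (nat_lit 0) (nat_lit 6) (Sb.cons (nat_lit 0) (nat_lit 0) (nat_lit 4) (Sb.cons (nat_lit 8) (nat_lit 4) (nat_lit 2) Sb.nil)) (Bl.c Y0_4_1_0 (nat_lit 16) (nat_lit 1) Bl.nil)) (Sl.cons (Sd.mk (nat_lit 2) (nat_lit 0) (nat_lit 6) (nat_lit 8) (Sb.cons (nat_lit 0) (nat_lit 0) (nat_lit 4) (Sb.cons (nat_lit 8) (nat_lit 4) (nat_lit 4) Sb.nil)) (Bl.r Y0_4_1_0 (nat_lit 0) Bl.nil)) (Sl.cons (Sd.mk (nat_lit 9) (nat_lit 8) (nat_lit 14) (nat_lit 6) (Sb.cons (nat_lit 0) (nat_lit 0) (nat_lit 2) (Sb.cons (nat_lit 8) (nat_lit 2) (nat_lit 4) Sb.nil)) (Bl.r Y0_4_2_3 (nat_lit 3) Bl.nil)) (Sl.cons (Sd.mk (nat_lit 10) (nat_lit 8) (nat_lit 20) (nat_lit 8) (Sb.cons (nat_lit 0) (nat_lit 0) (nat_lit 4) (Sb.cons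 (nat_lit 8) (nat_lit 4) (nat_lit 4) Sb.nil)) (Bl.c Y0_4_2_3 (nat_lit 12) (nat_lit 2) Bl.nil)) Sl.nil)))))
noncomputable def SI0_5 : Nat := (nat_lit 0xc030080200802004010040100400000000000000000)
noncomputable def SW0_5 : Nat := (nat_lit 0x160060050014008003008803c012008001004001c00d006001c002000)
noncomputable def RV0_5 : Nat := (nat_lit 0x8c05f08c05208c0a608c00318400718200308c0c808c07418404110001408c07008c09688c02498401998200b08c0a198401f982011)
noncomputable def CO0_5 : Nat := (nat_lit 0x14ac60142c6010b860100460100420100410097860092c6008a82008a800082c6001786001106001102001101000b86000142000141)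
noncomputable def Y0_5_1_0 : Nat := (nat_lit 0x100000000000000000000001000000000000000000000000000000000000000000001900000000002000000000019000000000000)
noncomputable def Y0_5_2_3 : Nat := (nat_lit 0xc0000000000000000000000c000000000000000000000000000000000000000000000000000000000)
noncomputable def C0_5 : Cd := (Cd.mk (nat_lit 18) (nat_lit 8) (nat_lit 23) SI0_5 SW0_5 RV0_5 CO0_5 (Sl.cons (Sd.mk (nat_lit 0) (nat_lit 0) (nat_lit 0) (nat_lit 7) (Sb.cons (nat_lit 0) (nat_lit 0) (nat_lit 3) (Sb.cons (nat_lit 4) (nat_lit 3) (nat_lit 4) Sb.nil)) (Bl.c Y0_5_1_0 (nat_lit 10) (nat_lit 1) Bl.nil)) (Sl.cons (Sd.mk (nat_lit 2) (nat_lit 0) (nat_lit 7) (nat_lit 5) (Sb.cons (nat_lit 0) (nat_lit 0) (nat_lit 3) (Sb.cons (nat_lit 4) (nat_lit 3) (nat_lit 2) Sb.nil)) (Bl.r Y0_5_1_0 (nat_lit 0) Bl.nil)) (Sl.cons (Sd.mk (nat_lit 4) (nat_lit 4) (nat_lit 12) (nat_lit 4) (Sb.cons (nat_lit 0) (nat_lit 0) (nat_lit 4) Sb.nil) (Bl.r Y0_5_2_3 (nat_lit 3) Bl.nil)) (Sl.cons (Sd.mk (nat_lit 5) (nat_lit 4) (nat_lit 16) (nat_lit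 2) (Sb.cons (nat_lit 0) (nat_lit 0) (nat_lit 2) Sb.nil) (Bl.c Y0_5_2_3 (nat_lit 8) (nat_lit 2) Bl.nil)) Sl.nil)))))
noncomputable def SI0_6 : Nat := (nat_lit 0x20080200802008020080200802008020080200802008020080200802008020080200801c0701c0701c0701c0701c0701c070180601806018060180601806018060180601806018060180601806018060180601806018060180601806018060180601806018060180601805014050140501405014050140501405014050140501405014050140401004010040100401004010040100401004010040100401004010040100401004010040100300c0300c0300c0300c0300c0300c0300c0300c0300c0300c0300c0300c0300c020080200802008020080200802008020080100401004010040100401004010040100401004010040100000000000000000000000000000000000)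
noncomputable def SW0_6 : Nat := (nat_lit 0xf807b03201980c606203081940c005f02f01740b80460240114088043023810808204001700b404001f00680300f407902d816807e03e01600ac03c01d00580280ec07803a81d00e607203881dc0e006f03701b40ae05902b01540a805802981480a205002780ec07a03a01c80e007803701b00d405402900d007003201800b806c02c01500a00240100d106802d41680a805102a414e0a605282901460a1050027c13c034014004c02401100383381940cf06683301960c9064031c18c0c505982c813809804e826c13409904b825812a09404980cc064031013804000c0c305f83101840c106002f817a0bc05882c012208d049024011e08e046022c11406c027013409800f00282ec1740af057022411006b025803800800300100040000b905c02b4158086041021c10a084041820410007f03501a40d004a018009816e0b605582a80fc07d033812405e025012008c044021)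
noncomputable def RV0_6 : Nat := (nat_lit 0x8c07c08c02008c0c408c07a08c06c18403c10000f08c01e08c00f28a00b20600e18401118200708c0cf08c07920801818403d10001008c01d08c01020800a18401208c07808c01c08c07b08c01f08c07708c01b08c06608c04808c05b08c03f08c05a08c03e08c05908c03d08c06508c04708c05808c03c08c08788c02e88c026a8a00fa0601398401b98200d08c00d28a00220800320600318400308c09288c02ca0601798402098201208c00b08c00528a00620600818400918200508c09d88c02b88c02798402190000008c00a08c00620800418400a88c02a08c00908c0a988c02d88c02898402290000108c00c08c00720800518400b88c02908c00808c0d108c0b908c0ce08c0c308c0bb08c0b708c01a08c00e28a00a20600d18401018200628a00720800620600918400c08c0cd08c01908c01320800d18401508c01608c0b508c0ad08c04608c03418402c10000508c03028a01120601918402418201408c0b308c0b108c0af08c0ab08c03b20601a18402518201508c02f28a01020601818402318201308c03318402b10000408c03a08c04208c03708c0b408c0ac08c06420801318403610000d08c04a20800f18402e08c0b208c0b008c0ae08c0aa08c05708c04b18402f10000608c04920800e18402d08c06308c04e18403210000908c06008c05308c0a808c08608c09c08c09108c08908c07e08c08508c09008c0a708c00428a00520600718400818200408c0d008c0b808c0ca08c0bf08c0ba08c0b608c07608c06b18403b10000e08c06720801418403708c06a20801718403a08c0be08c0c908c07508c0a208c08208c09808c08d08c08808c07d08c08108c08c08c09788c025a8a00ea0601298401a98200c)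
noncomputable def CO0_6 : Nat := (nat_lit 0x3aac603a8c603a74603a6c603a64603a64203a64003a4c603a44603a44503a44303a44203a4410397860396c60396840396820396800394c60394860394840394820392c60390c6038ac60388c60382c60380c6036ac60369c60366c60365c60356c60355c60352c60351c6034ac60349c60342c60341c6032b060329c60329060329050329030329020329010328c60328050328040328030328020327460325c60325430325420325410324c60324460324450324430324420324410317860315c60315860315820315800314c60314860314840314820311c60310c6030b860309c60309860309820309800308c60308860308840308820301c60300c602bb8602bb0602b78602b74602b34602b30602b0c602b04602b04502b04302b04202b04102b00502b00402b00302b0020297860290c60288860288840288820280c6027b86027b060279c60279860279820279800279060279050279030279020279010277860277460273460273060271c60271430271420271410271060271050271030271020271010255860255820255800251c60249c60241c6017b86017b06017ac6017a84017a82017a80017a06017a04017a020177860177460173460173060172c6017246017242017240017206017204017202016ac6016646016642016640014ac60142c6013b86013b06013786013746013346013306012b06012746010b8601004601004501004301004201004100bb8600bb0600b78600b74600b34600b30600b2c600b24600b24200b24000b20600b20400b20200aa0600aa0400aa0200a7460097860092c6003b86003b06003786003746003346003306002b06002746001786001106001105001103001102001101)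
noncomputable def Y0_6_1_0 : Nat := (nat_lit 0x3fc000000000f30000000003fc000000000f70000000003fc000000000f30000000003fc000000000070000000003fc000000000070000000003fc000000000f70000000003fc000000000000000000003fc000000000000000000003dc000000000040000000003fc000000000000000000003fc000000000000000000003cc000000000030000000003dc0000000000400000000fcfc0000000170000000000fccc00000003f0300000000fcdc00000003f0400000000fcfc00000003f0000000000ff0000000003f0000000000ff0000000000000)
noncomputable def Y0_6_2_3 : Nat := (nat_lit 0xfc000000000370000000000fc000000000370000000000fc000000000370000000000fc000000000370000000000fc000000000370000000000fc0000000003700000fffff0c0000044008000000fffff0c0000044008000000ffffff00000044008000000ffffff00000004008000000e67ecd00000010020400000eeffdf0000000a0d5800000ffffff00000044008000000ffffff000000000000)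
noncomputable def Y0_6_4_5 : Nat := (nat_lit 0xfc000000000000000000000fc000000000000000000000fc000000000000000000000fc000000000040000000000fc000000000040000000000fc000000000000000000000fc000000000040000000000e4000000000000000000000ec0000000002a0000000000fc000000000040000000000fc000000000040000000000fc000000000000000000000fc000000000000000000000fc000000000000000000000fc000000000000000000000fc000000000000000000000ec0000000002a0000000000fc000000000000000000000fc000000000040000000000fc000000000040000000000e4000000000000000000000ec0000000002a0000000000fc000000000040000000000fc00000000004000000ffff3c00000171184000000ff773c00000001184000000ffff3c000003f0000000000ffff3c00000170000000000ffffc000000170000000000ffffc000000170000)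
noncomputable def Y0_6_6_6 : Nat := (nat_lit 0x40480800000000000000000000000000000000000000000000000000000000000000000000000000000000000000000000000000000000000000000000000000000000000000000000000000000000000f85f08000000a0140000000404808000000000000000004048080000010120200000040480800000101202000000404808000000000000000004048080000000000000000000000000000000000000000000000000000000000000000000000000000000000000000000000000000000000000f85f08000000a0140000000404808000001012020000004048080000000000000000040480800000101202000000404808000001012020000004048080000000000020020000080800000000000000000000000000000000000000000000000000000000000000000000000000000000000000000000000000000007f07c0001f0850040000140200200000808800800002022002000008088008000020220020000080880080000202000000000000000000000007f07c0001f085004000014020020040400000000000000000000000000000000000000000000000000000000000000000000000000000000000000000000000000000000007f07c0f84000500400a0000200200404000800801010002002004040008008010100020020040400080080101000000000000000000000000007f07c0f84000500400a0000)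
noncomputable def Y0_6_7_7 : Nat := (nat_lit 0x2a800000000000000000000000000000000000000000002a8000000000000000000000000000000000000000000282800000000000000000000000000000000000000000028280000000000000000000000000000000000000000002a800000000000000000000000000000000000000000002a8000000000000)
noncomputable def Y0_6_8_8 : Nat := (nat_lit 0x10f54000000001000000000000000000000000000000000085400000000000000000010f5400000000100000000000854000000002150000000008540000000000000000000085400000000215000000000000000000000000000000000000000000000000000000000000000000000000000000000000000000000000000000000000000000000000000000000000000000000010400014000000000000000187e0014000000a0000000010400014000041000050000104000140000000000000001040001400004100005000000000000000000000000000000000000000000000000000000000000000000000000000000000000000000000000187e0014000000a0000000000000000000000000000000187f0f40000000a0100000000000000000000000000000187f0f40000000a010000000000000000000000000)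
noncomputable def C0_6 : Cd := (Cd.mk (nat_lit 210) (nat_lit 4) (nat_lit 4369) SI0_6 SW0_6 RV0_6 CO0_6 (Sl.cons (Sd.mk (nat_lit 0) (nat_lit 0) (nat_lit 0) (nat_lit 14) (Sb.cons (nat_lit 4) (nat_lit 0) (nat_lit 6) (Sb.cons (nat_lit 8) (nat_lit 6) (nat_lit 2) (Sb.cons (nat_lit 12) (nat_lit 8) (nat_lit 6) Sb.nil))) (Bl.c Y0_6_1_0 (nat_lit 38) (nat_lit 1) Bl.nil)) (Sl.cons (Sd.mk (nat_lit 2) (nat_lit 0) (nat_lit 14) (nat_lit 19) (Sb.cons (nat_lit 4) (nat_lit 0) (nat_lit 2) (Sb.cons (nat_lit 8) (nat_lit 2) (nat_lit 4) (Sb.cons (nat_lit 12) (nat_lit 6) (nat_lit 13) Sb.nil))) (Bl.r Y0_6_1_0 (nat_lit 0) Bl.nil)) (Sl.cons (Sd.mk (nat_lit 4) (nat_lit 4) (nat_lit 33) (nat_lit 14) (Sb.cons (nat_lit 0) (nat_lit 0) (nat_lit 6) (Sb.cons (nat_lit 8) (nat_lit 6) (nat_lit 2) (Sb.cons (nat_lit 12) (nat_lit 8) (nat_lit 6) Sb.nil))) (Bl.r Y0_6_2_3 (nat_lit 3) Bl.nil)) (Sl.cons (Sd.mk (nat_lit 5) (nat_lit 4) (nat_lit 47) (nat_lit 26) (Sb.cons (nat_lit 0) (nat_lit 0) (nat_lit 2) (Sb.cons (nat_lit 8) (nat_lit 2) (nat_lit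 4) (Sb.cons (nat_lit 12) (nat_lit 6) (nat_lit 20) Sb.nil))) (Bl.c Y0_6_2_3 (nat_lit 28) (nat_lit 2) Bl.nil)) (Sl.cons (Sd.mk (nat_lit 9) (nat_lit 8) (nat_lit 73) (nat_lit 30) (Sb.cons (nat_lit 0) (nat_lit 0) (nat_lit 2) (Sb.cons (nat_lit 4) (nat_lit 2) (nat_lit 4) (Sb.cons (nat_lit 12) (nat_lit 6) (nat_lit 24) Sb.nil))) (Bl.r Y0_6_4_5 (nat_lit 5) Bl.nil)) (Sl.cons (Sd.mk (nat_lit 10) (nat_lit 8) (nat_lit 103) (nat_lit 22) (Sb.cons (nat_lit 0) (nat_lit 0) (nat_lit 4) (Sb.cons (nat_lit 4) (nat_lit 4) (nat_lit 2) (Sb.cons (nat_lit 12) (nat_lit 6) (nat_lit 16) Sb.nil))) (Bl.c Y0_6_4_5 (nat_lit 60) (nat_lit 4) Bl.nil)) (Sl.cons (Sd.mk (nat_lit 12) (nat_lit 12) (nat_lit 125) (nat_lit 45) (Sb.cons (nat_lit 0) (nat_lit 0) (nat_lit 11) (Sb.cons (nat_lit 4) (nat_lit 11) (nat_lit 11) (Sb.cons (nat_lit 8) (nat_lit 22) (nat_lit 23) Sb.nil))) (Bl.r Y0_6_6_6 (nat_lit 6) (Bl.c Y0_6_6_6 (nat_lit 90) (nat_lit 6) Bl.nil))) (Sl.cons (Sd.mk (nat_lit 13) (nat_lit 12) (nat_lit 170) (nat_lit 12) (Sb.cons (nat_lit 0)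 (nat_lit 0) (nat_lit 4) (Sb.cons (nat_lit 4) (nat_lit 4) (nat_lit 4) (Sb.cons (nat_lit 8) (nat_lit 8) (nat_lit 4) Sb.nil))) (Bl.r Y0_6_7_7 (nat_lit 7) (Bl.c Y0_6_7_7 (nat_lit 24) (nat_lit 7) Bl.nil))) (Sl.cons (Sd.mk (nat_lit 14) (nat_lit 12) (nat_lit 182) (nat_lit 28) (Sb.cons (nat_lit 0) (nat_lit 0) (nat_lit 4) (Sb.cons (nat_lit 4) (nat_lit 4) (nat_lit 11) (Sb.cons (nat_lit 8) (nat_lit 15) (nat_lit 13) Sb.nil))) (Bl.r Y0_6_8_8 (nat_lit 8) (Bl.c Y0_6_8_8 (nat_lit 56) (nat_lit 8) Bl.nil))) Sl.nil))))))))))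
noncomputable def CL0 : Cl := (Cl.cons C0_0 (Cl.cons C0_1 (Cl.cons C0_2 (Cl.cons C0_3 (Cl.cons C0_4 (Cl.cons C0_5 (Cl.cons C0_6 Cl.nil)))))))
noncomputable def ZL0_0 : Zl := (Zl.cons (nat_lit 0) (nat_lit 0) (nat_lit 2) (Zl.cons (nat_lit 8) (nat_lit 2) (nat_lit 11) (Zl.cons (nat_lit 22) (nat_lit 13) (nat_lit 13) (Zl.cons (nat_lit 15) (nat_lit 26) (nat_lit 9) (Zl.cons (nat_lit 0) (nat_lit 0) (nat_lit 0) (Zl.cons (nat_lit 12) (nat_lit 35) (nat_lit 4) (Zl.cons (nat_lit 33) (nat_lit 39) (nat_lit 14) Zl.nil)))))))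
noncomputable def ZZ0 : ZZ := (ZZ.cons ZL0_0 ZZ.nil)
noncomputable def SI1_0 : Nat := (nat_lit 0xc0300c0200802008020080100400)
noncomputable def SW1_0 : Nat := (nat_lit 0x5802801000900380180040010000014008003)
noncomputable def RV1_0 : Nat := (nat_lit 0x28a00018400708c05f08c02818401018200108c01e18401208c02508c02d18401508c04d)
noncomputable def CO1_0 : Nat := (nat_lit 0x2a80502a80202a7460269c60265420265410255860255820251c6016646016642012746)
noncomputable def Y1_0_0_1 : Nat := (nat_lit 0x1800000)
noncomputable def Y1_0_2_3 : Nat := (nat_lit 0x8000000000018000000000060000000000380000000000600000000002000000)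
noncomputable def C1_0 : Cd := (Cd.mk (nat_lit 12) (nat_lit 5) (nat_lit 1040) SI1_0 SW1_0 RV1_0 CO1_0 (Sl.cons (Sd.mk (nat_lit 4) (nat_lit 4) (nat_lit 0) (nat_lit 1) (Sb.cons (nat_lit 8) (nat_lit 0) (nat_lit 1) Sb.nil) (Bl.r Y1_0_0_1 (nat_lit 1) Bl.nil)) (Sl.cons (Sd.mk (nat_lit 5) (nat_lit 4) (nat_lit 1) (nat_lit 2) (Sb.cons (nat_lit 8) (nat_lit 0) (nat_lit 2) Sb.nil) (Bl.c Y1_0_0_1 (nat_lit 2) (nat_lit 0) Bl.nil)) (Sl.cons (Sd.mk (nat_lit 9) (nat_lit 8) (nat_lit 3) (nat_lit 6) (Sb.cons (nat_lit 4) (nat_lit 0) (nat_lit 3) (Sb.cons (nat_lit 8) (nat_lit 3) (nat_lit 3) Sb.nil)) (Bl.r Y1_0_2_3 (nat_lit 3) Bl.nil)) (Sl.cons (Sd.mk (nat_lit 10) (nat_lit 8) (nat_lit 9) (nat_lit 3) (Sb.cons (nat_lit 8) (nat_lit 0) (nat_lit 3) Sb.nil) (Bl.c Y1_0_2_3 (nat_lit 12) (nat_lit 2) Bl.nil)) Sl.nil)))))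
noncomputable def SI1_1 : Nat := (nat_lit 0x100400)
noncomputable def SW1_1 : Nat := (nat_lit 0x8002000)
noncomputable def RV1_1 : Nat := (nat_lit 0x208008100006208000)
noncomputable def CO1_1 : Nat := (nat_lit 0x15684015680011004)
noncomputable def C1_1 : Cd := (Cd.mk (nat_lit 3) (nat_lit 6) (nat_lit 81) SI1_1 SW1_1 RV1_1 CO1_1 (Sl.cons (Sd.mk (nat_lit 4) (nat_lit 4) (nat_lit 0) (nat_lit 1) (Sb.cons (nat_lit 4) (nat_lit 0) (nat_lit 1) Sb.nil) Bl.nil) (Sl.cons (Sd.mk (nat_lit 5) (nat_lit 4) (nat_lit 1) (nat_lit 2) (Sb.cons (nat_lit 4) (nat_lit 0) (nat_lit 2) Sb.nil) Bl.nil) Sl.nil)))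
noncomputable def SI1_2 : Nat := (nat_lit 0x501405010040100400c0300c0300c0200802008020040100400000000000000000)
noncomputable def SW1_2 : Nat := (nat_lit 0x6801200600b804c02400500b0054022010002003801a0030010004032008003806002800f006002c014000)
noncomputable def RV1_2 : Nat := (nat_lit 0x20600608c00b08c00e20601108c01f10000108c02208c02e10000420800910000708c03020800120600008c00020600218400108c03720800e10000a08c04408c04a08c04f88c014a0600998400aa0600c)
noncomputable def CO1_2 : Nat := (nat_lit 0x2a8030288860280c60265430255860255800241c60166460166400156840156800142c601100401100301004601004301004200aa06008a84008a80002b06002746001786001106001103001102000143)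
noncomputable def Y1_2_1_0 : Nat := (nat_lit 0x280000000001000000000039000030)
noncomputable def Y1_2_2_3 : Nat := (nat_lit 0x88000110000200000000000700000000002000000000005000000)
noncomputable def Y1_2_4_5 : Nat := (nat_lit 0x60000000000200000400000400000000002000004)
noncomputable def C1_2 : Cd := (Cd.mk (nat_lit 27) (nat_lit 6) (nat_lit 546) SI1_2 SW1_2 RV1_2 CO1_2 (Sl.cons (Sd.mk (nat_lit 0) (nat_lit 0) (nat_lit 0) (nat_lit 7) (Sb.cons (nat_lit 0) (nat_lit 0) (nat_lit 1) (Sb.cons (nat_lit 4) (nat_lit 1) (nat_lit 4) (Sb.cons (nat_lit 8) (nat_lit 5) (nat_lit 2) Sb.nil))) (Bl.c Y1_2_1_0 (nat_lit 6) (nat_lit 1) Bl.nil)) (Sl.cons (Sd.mk (nat_lit 2) (nat_lit 0) (nat_lit 7) (nat_lit 3) (Sb.cons (nat_lit 0) (nat_lit 0) (nat_lit 2) (Sb.cons (nat_lit 8) (nat_lit 2) (nat_lit 1) Sb.nil)) (Bl.r Y1_2_1_0 (nat_lit 0) Bl.nil)) (Sl.cons (Sd.mk (nat_lit 4) (nat_lit 4) (nat_lit 10) (nat_lit 5) (Sb.cons (nat_lit 0) (nat_lit 0) (nat_lit 3) (Sb.cons (nat_lit 4) (nat_lit 3) (nat_lit 2) Sb.nil)) (Bl.r Y1_2_2_3 (nat_lit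 3) Bl.nil)) (Sl.cons (Sd.mk (nat_lit 5) (nat_lit 4) (nat_lit 15) (nat_lit 5) (Sb.cons (nat_lit 0) (nat_lit 0) (nat_lit 1) (Sb.cons (nat_lit 4) (nat_lit 1) (nat_lit 2) (Sb.cons (nat_lit 8) (nat_lit 3) (nat_lit 2) Sb.nil))) (Bl.c Y1_2_2_3 (nat_lit 10) (nat_lit 2) Bl.nil)) (Sl.cons (Sd.mk (nat_lit 9) (nat_lit 8) (nat_lit 20) (nat_lit 4) (Sb.cons (nat_lit 0) (nat_lit 0) (nat_lit 1) (Sb.cons (nat_lit 4) (nat_lit 1) (nat_lit 2) (Sb.cons (nat_lit 8) (nat_lit 3) (nat_lit 1) Sb.nil))) (Bl.r Y1_2_4_5 (nat_lit 5) Bl.nil)) (Sl.cons (Sd.mk (nat_lit 10) (nat_lit 8) (nat_lit 24) (nat_lit 3) (Sb.cons (nat_lit 0) (nat_lit 0) (nat_lit 2) (Sb.cons (nat_lit 8) (nat_lit 2) (nat_lit 1) Sb.nil)) (Bl.c Y1_2_4_5 (nat_lit 8) (nat_lit 4) Bl.nil)) Sl.nil)))))))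
noncomputable def SI1_3 : Nat := (nat_lit 0xc0300c0300802008020080100401004000000000000)
noncomputable def SW1_3 : Nat := (nat_lit 0x2200d004001002000c003800c00400f005801800200e005002400a000)
noncomputable def RV1_3 : Nat := (nat_lit 0x18401708c03308c03408c03108c05218400008c05608c00118400208c06108c03d18401a08c03b08c05088c01598400b08c05398400d)
noncomputable def CO1_3 : Nat := (nat_lit 0x156820152c6014ac60142c6011786011002010b860100460100420097860092c6008a820082c6001786001106001102000b86000142)
noncomputable def Y1_3_1_0 : Nat := (nat_lit 0x100000200000b8000120000100000000000b800012)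
noncomputable def Y1_3_2_3 : Nat := (nat_lit 0x380000700000e0000000000380000700001e00001c00003800000)
noncomputable def C1_3 : Cd := (Cd.mk (nat_lit 18) (nat_lit 7) (nat_lit 52) SI1_3 SW1_3 RV1_3 CO1_3 (Sl.cons (Sd.mk (nat_lit 0) (nat_lit 0) (nat_lit 0) (nat_lit 5) (Sb.cons (nat_lit 0) (nat_lit 0) (nat_lit 2) (Sb.cons (nat_lit 4) (nat_lit 2) (nat_lit 3) Sb.nil)) (Bl.c Y1_3_1_0 (nat_lit 8) (nat_lit 1) Bl.nil)) (Sl.cons (Sd.mk (nat_lit 2) (nat_lit 0) (nat_lit 5) (nat_lit 4) (Sb.cons (nat_lit 0) (nat_lit 0) (nat_lit 2) (Sb.cons (nat_lit 4) (nat_lit 2) (nat_lit 2) Sb.nil)) (Bl.r Y1_3_1_0 (nat_lit 0) Bl.nil)) (Sl.cons (Sd.mk (nat_lit 4) (nat_lit 4) (nat_lit 9) (nat_lit 5) (Sb.cons (nat_lit 0) (nat_lit 0) (nat_lit 3) (Sb.cons (nat_lit 4) (nat_lit 3) (nat_lit 2) Sb.nil)) (Bl.r Y1_3_2_3 (nat_lit 3) Bl.nil)) (Sl.cons (Sd.mk (nat_lit 5) (nat_lit 4) (nat_lit 14) (nat_lit 4) (Sb.cons (nat_lit 0) (nat_lit 0) (nat_lit 2) (Sb.cons (nat_lit 4) (nat_lit 2) (nat_lit 2) Sb.nil)) (Bl.c Y1_3_2_3 (nat_lit 10) (nat_lit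 2) Bl.nil)) Sl.nil)))))
noncomputable def SI1_4 : Nat := (nat_lit 0x300c0300c020080200801004000000000000)
noncomputable def SW1_4 : Nat := (nat_lit 0x380140060020034012008001803000400b0038014002000)
noncomputable def RV1_4 : Nat := (nat_lit 0x18400808c06008c00c08c00f08c02918401118200208c02308c03808c03c08c04508c04b08c05498400e982000)
noncomputable def CO1_4 : Nat := (nat_lit 0x2a80202a7460288860280c60269c60265420265410241c600aa060082c6002b06002746000b86000142000141)
noncomputable def Y1_4_1_0 : Nat := (nat_lit 0x3e0000380000f00001e)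
noncomputable def Y1_4_2_3 : Nat := (nat_lit 0x40000080000180000300000600000c00007000006)
noncomputable def C1_4 : Cd := (Cd.mk (nat_lit 15) (nat_lit 7) (nat_lit 517) SI1_4 SW1_4 RV1_4 CO1_4 (Sl.cons (Sd.mk (nat_lit 0) (nat_lit 0) (nat_lit 0) (nat_lit 5) (Sb.cons (nat_lit 0) (nat_lit 0) (nat_lit 3) (Sb.cons (nat_lit 8) (nat_lit 3) (nat_lit 2) Sb.nil)) (Bl.c Y1_4_1_0 (nat_lit 4) (nat_lit 1) Bl.nil)) (Sl.cons (Sd.mk (nat_lit 2) (nat_lit 0) (nat_lit 5) (nat_lit 2) (Sb.cons (nat_lit 0) (nat_lit 0) (nat_lit 1) (Sb.cons (nat_lit 8) (nat_lit 1) (nat_lit 1) Sb.nil)) (Bl.r Y1_4_1_0 (nat_lit 0) Bl.nil)) (Sl.cons (Sd.mk (nat_lit 9) (nat_lit 8) (nat_lit 7) (nat_lit 4) (Sb.cons (nat_lit 0) (nat_lit 0) (nat_lit 1) (Sb.cons (nat_lit 8) (nat_lit 1) (nat_lit 3) Sb.nil)) (Bl.r Y1_4_2_3 (nat_lit 3) Bl.nil)) (Sl.cons (Sd.mk (nat_lit 10) (nat_lit 8) (nat_lit 11) (nat_lit 4) (Sb.cons (nat_lit 0) (nat_lit 0) (nat_lit 2) (Sb.cons (nat_lit 8) (nat_lit 2) (nat_lit 2) Sb.nil)) (Bl.c Y1_4_2_3 (nat_lit 8) (nat_lit 2) Bl.nil))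 Sl.nil)))))
noncomputable def SI1_5 : Nat := (nat_lit 0)
noncomputable def SW1_5 : Nat := (nat_lit 0)
noncomputable def RV1_5 : Nat := (nat_lit 0x10000b)
noncomputable def CO1_5 : Nat := (nat_lit 0x8a80)
noncomputable def C1_5 : Cd := (Cd.mk (nat_lit 1) (nat_lit 8) (nat_lit 23) SI1_5 SW1_5 RV1_5 CO1_5 (Sl.cons (Sd.mk (nat_lit 2) (nat_lit 0) (nat_lit 0) (nat_lit 1) (Sb.cons (nat_lit 0) (nat_lit 0) (nat_lit 1) Sb.nil) Bl.nil) Sl.nil))
noncomputable def SI1_6 : Nat := (nat_lit 0x1c0701c0701c0701c0701c0701c0701c07018060180601806018060180601806018060180601806018060180601405014050140501405014050140401004010040100401004010040100400c0300c0300c0300c0300c0300c0300c030080200802008020080200401004010040100401004010040000000000000000000000)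
noncomputable def SW1_6 : Nat := (nat_lit 0x8204001b00d4068029014009c03601a009804801000701f80f407c03c01d80cc064031018009804a0240118088032018008804001e00e00300140ca06402b81540ac054029808401a00c005818c0c406102901440a004f010007c03c01700500100c005f02f013809a04c025812807402f01700b401200302e8170092048016000800200002d816808e046022811007203801b80ac03a05902c010c08402a00e005802a014)
noncomputable def RV1_6 : Nat := (nat_lit 0x8c04108c01308c03a08c00920600820800d10000908c00a08c03f08c01108c04008c01208c03e08c01088c01ba0600b08c008208002206001a0600d08c00320600418400488c01790000008c00420800318400588c01908c00688c01a08c00720800418400688c01808c00508c06508c05b08c05d08c05920600720800520600508c06308c00d20800618400908c02108c01d20600f20601008c01c20600e18400f08c02018401310000208c02608c02708c02420800a10000808c02b08c02c10000308c02a20800718401408c03608c02f18401610000508c03508c03208c05708c04708c04908c04308c04e08c00220600318400308c06408c05a08c05c08c05820800b18401808c03920800c18401908c05e08c06208c05508c04608c04808c04208c04c08c05188c016a0600a98400c)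
noncomputable def CO1_6 : Nat := (nat_lit 0x3aac603a8c603a64603a44603a4430396840396800394860392c60390c6038ac60388c60382c60380c60329c60329030328c60328040328030325430324460324430324420315860315800314860314840314820311c60310c60309c60308c60308840308820301c60300c602bb8602bb0602b34602b30602b04302b00402b0030297860288860288840288820279860279060279030271430271060271030271020255860255820255800251c60249c60241c6017a84017a80017a06017246017240017206017204017202016ac6016646016642016640014ac60142c6013b86013b0601334601330601274601004601004301004200bb8600bb0600b34600b30600b20400b20200aa0600aa0400aa0200a746009786003b86003b06003346003306002746001786001106001103001102)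
noncomputable def Y1_6_1_0 : Nat := (nat_lit 0xe80000000003e0000000000180000200003e00000800000800000000004000008000700000000003c2000000000f10000000003c0000000000f0000000)
noncomputable def Y1_6_2_3 : Nat := (nat_lit 0x6e0000000001b80000000006e0000000001b80000000410000000000040000000001ab000006001040000000)
noncomputable def Y1_6_4_5 : Nat := (nat_lit 0x10000000000040000000000680000000001a0000000000100000000001a000000000010000000007e40005c000039000070000f00000000001c0000000000700000000001c0000000)
noncomputable def Y1_6_6_6 : Nat := (nat_lit 0x30000000000005100002000014400008000000000000000144000000000510000000001440000000000000000000000000000100011000000400044000001000110000000000000000008800000000000000000000088c001000004001000000010004020000000000000000088c00000000)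
noncomputable def Y1_6_7_7 : Nat := (nat_lit 0x800000000000000000000002a000000000000000000000000000000080280000000200a00000000000000000000c0000000000000000000000c8000000000000000000000c8000000000000000000)
noncomputable def C1_6 : Cd := (Cd.mk (nat_lit 102) (nat_lit 4) (nat_lit 4369) SI1_6 SW1_6 RV1_6 CO1_6 (Sl.cons (Sd.mk (nat_lit 0) (nat_lit 0) (nat_lit 0) (nat_lit 9) (Sb.cons (nat_lit 4) (nat_lit 0) (nat_lit 4) (Sb.cons (nat_lit 8) (nat_lit 4) (nat_lit 1) (Sb.cons (nat_lit 12) (nat_lit 5) (nat_lit 4) Sb.nil))) (Bl.c Y1_6_1_0 (nat_lit 22) (nat_lit 1) Bl.nil)) (Sl.cons (Sd.mk (nat_lit 2) (nat_lit 0) (nat_lit 9) (nat_lit 11) (Sb.cons (nat_lit 4) (nat_lit 0) (nat_lit 1) (Sb.cons (nat_lit 8) (nat_lit 1) (nat_lit 4) (Sb.cons (nat_lit 12) (nat_lit 5) (nat_lit 6) Sb.nil))) (Bl.r Y1_6_1_0 (nat_lit 0) Bl.nil)) (Sl.cons (Sd.mk (nat_lit 4) (nat_lit 4) (nat_lit 20) (nat_lit 8) (Sb.cons (nat_lit 0) (nat_lit 0) (nat_lit 3) (Sb.cons (nat_lit 8) (nat_lit 3) (nat_lit 1) (Sb.cons (nat_lit 12) (nat_lit 4) (nat_lit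 4) Sb.nil))) (Bl.r Y1_6_2_3 (nat_lit 3) Bl.nil)) (Sl.cons (Sd.mk (nat_lit 5) (nat_lit 4) (nat_lit 28) (nat_lit 14) (Sb.cons (nat_lit 0) (nat_lit 0) (nat_lit 2) (Sb.cons (nat_lit 8) (nat_lit 2) (nat_lit 4) (Sb.cons (nat_lit 12) (nat_lit 6) (nat_lit 8) Sb.nil))) (Bl.c Y1_6_2_3 (nat_lit 16) (nat_lit 2) Bl.nil)) (Sl.cons (Sd.mk (nat_lit 9) (nat_lit 8) (nat_lit 42) (nat_lit 13) (Sb.cons (nat_lit 0) (nat_lit 0) (nat_lit 2) (Sb.cons (nat_lit 4) (nat_lit 2) (nat_lit 4) (Sb.cons (nat_lit 12) (nat_lit 6) (nat_lit 7) Sb.nil))) (Bl.r Y1_6_4_5 (nat_lit 5) Bl.nil)) (Sl.cons (Sd.mk (nat_lit 10) (nat_lit 8) (nat_lit 55) (nat_lit 11) (Sb.cons (nat_lit 0) (nat_lit 0) (nat_lit 3) (Sb.cons (nat_lit 4) (nat_lit 3) (nat_lit 1) (Sb.cons (nat_lit 12) (nat_lit 4) (nat_lit 7) Sb.nil))) (Bl.c Y1_6_4_5 (nat_lit 26) (nat_lit 4) Bl.nil)) (Sl.cons (Sd.mk (nat_lit 12) (nat_lit 12) (nat_lit 66) (nat_lit 22) (Sb.cons (nat_lit 0) (nat_lit 0) (nat_lit 6) (Sb.cons (nat_lit 4) (nat_lit 6) (nat_lit 7) (Sb.cons (nat_lit 8) (nat_lit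 13) (nat_lit 9) Sb.nil))) (Bl.r Y1_6_6_6 (nat_lit 6) (Bl.c Y1_6_6_6 (nat_lit 44) (nat_lit 6) Bl.nil))) (Sl.cons (Sd.mk (nat_lit 14) (nat_lit 12) (nat_lit 88) (nat_lit 14) (Sb.cons (nat_lit 0) (nat_lit 0) (nat_lit 4) (Sb.cons (nat_lit 4) (nat_lit 4) (nat_lit 5) (Sb.cons (nat_lit 8) (nat_lit 9) (nat_lit 5) Sb.nil))) (Bl.r Y1_6_7_7 (nat_lit 7) (Bl.c Y1_6_7_7 (nat_lit 28) (nat_lit 7) Bl.nil))) Sl.nil)))))))))
noncomputable def CL1 : Cl := (Cl.cons C1_0 (Cl.cons C1_1 (Cl.cons C1_2 (Cl.cons C1_3 (Cl.cons C1_4 (Cl.cons C1_5 (Cl.cons C1_6 Cl.nil)))))))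
noncomputable def AL1_0 : Nat := (nat_lit 0x13af5b)
noncomputable def A41_0 : Nat := (nat_lit 0x132f59)
noncomputable def IX1_0 : Nat := (nat_lit 0xb00000000000000000000000000000000000000a00000000000090000000000000000000000000000000000000080000000000000000000000000700000000000060000000000005000000000000400000000000000000000000003000000000000000000000000020000000000001000000000000000000000000000000000000000)
noncomputable def OL1_0 : Nat := (nat_lit 0xa001100200034005800a00120020003000400060000)
noncomputable def AL1_1 : Nat := (nat_lit 0x1791200)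
noncomputable def A41_1 : Nat := (nat_lit 0x1410000)
noncomputable def IX1_1 : Nat := (nat_lit 0x2000000000000000000000000010000000000000000000000000000000000000000000000000000000000000000000000000000000000000000000000000000000000000000000000000000000000000000000000000000000000000000000000000000000000000000000000000000000000000000000000000000000000000000000000000000000000000000000000000000000000000000000000)
noncomputable def OL1_1 : Nat := (nat_lit 0x18002c0040)
noncomputable def AL1_2 : Nat := (nat_lit 0x8ca5fb5865b0af74)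
noncomputable def A41_2 : Nat := (nat_lit 0x84a52b4865a0af64)
noncomputable def IX1_2 : Nat := (nat_lit 0x1a000000000000000000000000000000000000000000000000000000000000000190000000000000000000000000000000000000180000000000000000000000001700000000000000000000000000000000000001600000000000000000000000015000000000000000000000000000000000000014000000000000000000000000130000000000000000000000001200000000000110000000000000000000000001000000000000000000000000000000000000000f0000000000000000000000000000000000000000000000000000000000000000e000000000000d00000000000000000000000000000000000000c0000000000000000000000000b000000000000a00000000000000000000000009000000000000000000000000000000000000000000000000000000000000000000000000000008000000000000000000000000070000000000000000000000000600000000000050000000000004000000000000300000000000000000000000002000000000000100000000000000000000000000000000000000000000000000000000000000000)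
noncomputable def OL1_2 : Nat := (nat_lit 0x3f007400dc01a8032006000b4015802900500098011801e003a006800c0017002a003c006800b001400240040006000a0008)
noncomputable def AL1_3 : Nat := (nat_lit 0x179d6baa)
noncomputable def A41_3 : Nat := (nat_lit 0x179d6baa)
noncomputable def IX1_3 : Nat := (nat_lit 0x1100000000000000000000000010000000000000f000000000000e000000000000d00000000000000000000000000000000000000c000000000000b000000000000a000000000000000000000000090000000000000000000000000800000000000070000000000000000000000000600000000000000000000000005000000000000400000000000030000000000000000000000000200000000000000000000000001000000000000000000000000000000000000000)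
noncomputable def OL1_3 : Nat := (nat_lit 0x38006800c8018002e0050009801200200038006800b00120020003800500060004)
noncomputable def AL1_4 : Nat := (nat_lit 0x3bbe07b)
noncomputable def A41_4 : Nat := (nat_lit 0x39b607b)
noncomputable def IX1_4 : Nat := (nat_lit 0xe000000000000d000000000000c00000000000000000000000000000000000000b000000000000a0000000000000000000000000900000000000080000000000000000000000000700000000000060000000000000000000000000000000000000000000000000000000000000000000000000000000000000000005000000000000400000000000030000000000002000000000000000000000000010000000000000)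
noncomputable def OL1_4 : Nat := (nat_lit 0x190030005c00a001300220040007000d000c0014002000300020000)
noncomputable def AL1_5 : Nat := (nat_lit 0x120)
noncomputable def A41_5 : Nat := (nat_lit 0x100)
noncomputable def IX1_5 : Nat := (nat_lit 0)
noncomputable def OL1_5 : Nat := (nat_lit 0x20)
noncomputable def AL1_6 : Nat := (nat_lit 0x36e8dcfc001a599b37f6fff88d70d705bfe2f07fffffdf93fbff7)
noncomputable def A41_6 : Nat := (nat_lit 0x322854fc0012588b15f45f988d709404b7e2c05ffe6ad983fb376)
noncomputable def IX1_6 : Nat := (nat_lit 0x650000000000064000000000000000000000000000000000000063000000000000000000000000000000000000000000000000006200000000000000000000000061000000000000000000000000000000000000000000000000000000000000000600000000000000000000000005f0000000000000000000000005e00000000000000000000000000000000000005d000000000005c000000000005b000000000005a00000000000590000000000058000000000000000000000000000000000000000000000000000000000000000000000000000000000000000000000000000000000000000000000000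000000000000000000000000000000000000000000000000000000000000570000000000000000000000000000000000000560000000000000000000000000000000000000550000000000000000000000005400000000000530000000000000000000000000000000000000000000000000052000000000000000000000000000000000000000000000000005100000000000000000000000050000000000004f000000000000000000000000000000000000000000000000004e0000000000000000000000004d0000000000000000000000004c000000000004b000000000004a00000000000490000000000048000000000000000000000000470000000000000000000000000000000000000000000000000046000000000000000000000000450000000000044000000000004300000000000420000000000041000000000004000000000000000000000000000000000000003f000000000003e000000000000000000000000000000000000000000000000003d000000000000000000000000000000000000000000000000003c000000000003b0000000000000000000000003a0000000000000000000000003900000000000380000000000037000000000000000000000000000000000000000000000000000000000000000360000000000000000000000000000000000000350000000000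0000000000000034000000000000000000000000000000000000000000000000000000000000000000000000000000000000000000000000000000330000000000000000000000000000000000000320000000000000000000000003100000000000300000000000000000000000002f000000000002e000000000002d000000000002c000000000002b000000000002a0000000000000000000000000000000000000000000000000029000000000000000000000000280000000000027000000000000000000000000000000000000000000000000000000000000000000000000000000000000000000000000000000260000000000000000000000002500000000000240000000000023000000000002200000000000210000000000020000000000001f000000000001e000000000001d000000000001c000000000001b000000000001a00000000000000000000000000000000000001900000000000180000000000000000000000001700000000000000000000000016000000000000000000000000150000000000014000000000000000000000000130000000000012000000000000000000000000000000000000011000000000001000000000000000000000000000000000000000000000000000000000000000000000000000000f000000000000e000000000000d000000000000c000000000000b000000000000a0000000000009000000000000000000000000080000000000007000000000000000000000000000000000000006000000000000500000000000000000000000004000000000000300000000000020000000000000000000000000100000000000000000000000000)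
noncomputable def OL1_6 : Nat := (nat_lit 0x1a2034006680c9018e030806000be017602e805c80b8016e02d805400a50144028004f809b012e025404a0090011c0230045808a011202200430082010001fc03f007d00f801ec03c007700e601bc037006c00d401a4034006300c0017802b005300a20140027004d0098012c0250049008a010c021003a007000dc01b0035006800cc0190031006000bc017002d005400a4013802500460088010001f0038006c00a8014002600480088010001e0034006000900100018002800400040004)
noncomputable def TL1 : Tl := (Tl.cons (Tr.mk AL1_0 A41_0 IX1_0 OL1_0) (Tl.cons (Tr.mk AL1_1 A41_1 IX1_1 OL1_1) (Tl.cons (Tr.mk AL1_2 A41_2 IX1_2 OL1_2) (Tl.cons (Tr.mk AL1_3 A41_3 IX1_3 OL1_3) (Tl.cons (Tr.mk AL1_4 A41_4 IX1_4 OL1_4) (Tl.cons (Tr.mk AL1_5 A41_5 IX1_5 OL1_5) (Tl.cons (Tr.mk AL1_6 A41_6 IX1_6 OL1_6) Tl.nil)))))))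
noncomputable def ZL1_0 : Zl := (Zl.cons (nat_lit 0) (nat_lit 0) (nat_lit 12) (Zl.cons (nat_lit 0) (nat_lit 0) (nat_lit 3) (Zl.cons (nat_lit 0) (nat_lit 0) (nat_lit 27) (Zl.cons (nat_lit 0) (nat_lit 0) (nat_lit 18) (Zl.cons (nat_lit 0) (nat_lit 0) (nat_lit 15) (Zl.cons (nat_lit 0) (nat_lit 0) (nat_lit 1) (Zl.cons (nat_lit 0) (nat_lit 0) (nat_lit 102) Zl.nil)))))))
noncomputable def ZZ1 : ZZ := (ZZ.cons ZL1_0 ZZ.nil)
noncomputable def C2_0 : Cd := (Cd.mk (nat_lit 0) (nat_lit 5) (nat_lit 1040) (nat_lit 0) (nat_lit 0) (nat_lit 0) (nat_lit 0) Sl.nil)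
noncomputable def C2_1 : Cd := (Cd.mk (nat_lit 0) (nat_lit 6) (nat_lit 81) (nat_lit 0) (nat_lit 0) (nat_lit 0) (nat_lit 0) Sl.nil)
noncomputable def SI2_2 : Nat := (nat_lit 0x200400)
noncomputable def SW2_2 : Nat := (nat_lit 0x4004000)
noncomputable def RV2_2 : Nat := (nat_lit 0x8c00208c004208000)
noncomputable def CO2_2 : Nat := (nat_lit 0x25586016646011004)
noncomputable def Y2_2_0_1 : Nat := (nat_lit 0x110)
noncomputable def C2_2 : Cd := (Cd.mk (nat_lit 3) (nat_lit 6) (nat_lit 546) SI2_2 SW2_2 RV2_2 CO2_2 (Sl.cons (Sd.mk (nat_lit 4) (nat_lit 4) (nat_lit 0) (nat_lit 1) (Sb.cons (nat_lit 4) (nat_lit 0) (nat_lit 1) Sb.nil) (Bl.r Y2_2_0_1 (nat_lit 1) Bl.nil)) (Sl.cons (Sd.mk (nat_lit 5) (nat_lit 4) (nat_lit 1) (nat_lit 1) (Sb.cons (nat_lit 8) (nat_lit 0) (nat_lit 1) Sb.nil) (Bl.c Y2_2_0_1 (nat_lit 3) (nat_lit 0) Bl.nil)) (Sl.cons (Sd.mk (nat_lit 9) (nat_lit 8) (nat_lit 2) (nat_lit 1) (Sb.cons (nat_lit 4) (nat_lit 0) (nat_lit 1) Sb.nil) Bl.nil) Sl.nil))))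
noncomputable def SI2_3 : Nat := (nat_lit 0x8020040100000)
noncomputable def SW2_3 : Nat := (nat_lit 0x60010028000008002)
noncomputable def RV2_3 : Nat := (nat_lit 0x8c00b08c00008c00808c00688c00108c009)
noncomputable def CO2_3 : Nat := (nat_lit 0x10b860100460092c60082c6001106000b86)
noncomputable def Y2_3_1_0 : Nat := (nat_lit 0x100100)
noncomputable def C2_3 : Cd := (Cd.mk (nat_lit 6) (nat_lit 7) (nat_lit 52) SI2_3 SW2_3 RV2_3 CO2_3 (Sl.cons (Sd.mk (nat_lit 0) (nat_lit 0) (nat_lit 0) (nat_lit 2) (Sb.cons (nat_lit 0) (nat_lit 0) (nat_lit 1) (Sb.cons (nat_lit 4) (nat_lit 1) (nat_lit 1) Sb.nil)) (Bl.c Y2_3_1_0 (nat_lit 6) (nat_lit 1) Bl.nil)) (Sl.cons (Sd.mk (nat_lit 2) (nat_lit 0) (nat_lit 2) (nat_lit 2) (Sb.cons (nat_lit 0) (nat_lit 0) (nat_lit 1) (Sb.cons (nat_lit 4) (nat_lit 1) (nat_lit 1) Sb.nil)) (Bl.r Y2_3_1_0 (nat_lit 0) Bl.nil)) (Sl.cons (Sd.mk (nat_lit 4) (nat_lit 4) (nat_lit 4) (nat_lit 2) (Sb.cons (nat_lit 0) (nat_lit 0) (nat_lit 2) Sb.nil) Bl.nil) Sl.nil))))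
noncomputable def SI2_4 : Nat := (nat_lit 0x100000)
noncomputable def SW2_4 : Nat := (nat_lit 0x4004000)
noncomputable def RV2_4 : Nat := (nat_lit 0x8c00708c00a984000)
noncomputable def CO2_4 : Nat := (nat_lit 0x82c6000b86000142)
noncomputable def Y2_4_1_0 : Nat := (nat_lit 0x310)
noncomputable def C2_4 : Cd := (Cd.mk (nat_lit 3) (nat_lit 7) (nat_lit 517) SI2_4 SW2_4 RV2_4 CO2_4 (Sl.cons (Sd.mk (nat_lit 0) (nat_lit 0) (nat_lit 0) (nat_lit 2) (Sb.cons (nat_lit 0) (nat_lit 0) (nat_lit 2) Sb.nil) (Bl.c Y2_4_1_0 (nat_lit 3) (nat_lit 1) Bl.nil)) (Sl.cons (Sd.mk (nat_lit 2) (nat_lit 0) (nat_lit 2) (nat_lit 1) (Sb.cons (nat_lit 0) (nat_lit 0) (nat_lit 1) Sb.nil) (Bl.r Y2_4_1_0 (nat_lit 0) Bl.nil)) Sl.nil)))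
noncomputable def C2_5 : Cd := (Cd.mk (nat_lit 0) (nat_lit 8) (nat_lit 23) (nat_lit 0) (nat_lit 0) (nat_lit 0) (nat_lit 0) Sl.nil)
noncomputable def SI2_6 : Nat := (nat_lit 0x1405014040100400c030080200400)
noncomputable def SW2_6 : Nat := (nat_lit 0x4001c00c00b00500240060020028010000001)
noncomputable def RV2_6 : Nat := (nat_lit 0xa0600520800120600020600320800220600208c00318400108c005184002206001a06004)
noncomputable def CO2_6 : Nat := (nat_lit 0x3290303280403280302b04302b00402b003025586025582016646016642010043001103)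
noncomputable def Y2_6_1_2 : Nat := (nat_lit 0x300)
noncomputable def Y2_6_3_4 : Nat := (nat_lit 0x700720)
noncomputable def C2_6 : Cd := (Cd.mk (nat_lit 12) (nat_lit 4) (nat_lit 4369) SI2_6 SW2_6 RV2_6 CO2_6 (Sl.cons (Sd.mk (nat_lit 0) (nat_lit 0) (nat_lit 0) (nat_lit 1) (Sb.cons (nat_lit 4) (nat_lit 0) (nat_lit 1) Sb.nil) Bl.nil) (Sl.cons (Sd.mk (nat_lit 4) (nat_lit 4) (nat_lit 1) (nat_lit 1) (Sb.cons (nat_lit 0) (nat_lit 0) (nat_lit 1) Sb.nil) (Bl.r Y2_6_1_2 (nat_lit 2) Bl.nil)) (Sl.cons (Sd.mk (nat_lit 5) (nat_lit 4) (nat_lit 2) (nat_lit 2) (Sb.cons (nat_lit 8) (nat_lit 0) (nat_lit 2) Sb.nil) (Bl.c Y2_6_1_2 (nat_lit 3) (nat_lit 1) Bl.nil)) (Sl.cons (Sd.mk (nat_lit 9) (nat_lit 8) (nat_lit 4) (nat_lit 2) (Sb.cons (nat_lit 4) (nat_lit 0) (nat_lit 2) Sb.nil) (Bl.r Y2_6_3_4 (nat_lit 4) Bl.nil)) (Sl.cons (Sd.mk (nat_lit 10) (nat_lit 8) (nat_lit 6) (nat_lit 3) (Sb.cons (nat_lit 12) (nat_lit 0) (nat_lit 3) Sb.nil) (Bl.c Y2_6_3_4 (nat_lit 6) (nat_lit 3) Bl.nil)) (Sl.cons (Sd.mk (nat_lit 12) (nat_lit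 12) (nat_lit 9) (nat_lit 3) (Sb.cons (nat_lit 8) (nat_lit 0) (nat_lit 3) Sb.nil) Bl.nil) Sl.nil)))))))
noncomputable def CL2 : Cl := (Cl.cons C2_0 (Cl.cons C2_1 (Cl.cons C2_2 (Cl.cons C2_3 (Cl.cons C2_4 (Cl.cons C2_5 (Cl.cons C2_6 Cl.nil)))))))
noncomputable def AL2_0 : Nat := (nat_lit 0)
noncomputable def A42_0 : Nat := (nat_lit 0)
noncomputable def IX2_0 : Nat := (nat_lit 0)
noncomputable def OL2_0 : Nat := (nat_lit 0)
noncomputable def AL2_1 : Nat := (nat_lit 0)
noncomputable def A42_1 : Nat := (nat_lit 0)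
noncomputable def IX2_1 : Nat := (nat_lit 0)
noncomputable def OL2_1 : Nat := (nat_lit 0)
noncomputable def AL2_2 : Nat := (nat_lit 0x458c0b0)
noncomputable def A42_2 : Nat := (nat_lit 0x484000)
noncomputable def IX2_2 : Nat := (nat_lit 0x20000000000000000000000000000000000000010000000000000000000000000000000000000000000000000000000000000000000000000000000000000000000000000000000000000000000000000000000000000000000000000000000000000000000000000000000000000000000000000000000000000000000000000000000000000000000000000000000)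
noncomputable def OL2_2 : Nat := (nat_lit 0x1600260038)
noncomputable def AL2_3 : Nat := (nat_lit 0x1edba)
noncomputable def A42_3 : Nat := (nat_lit 0xcaa)
noncomputable def IX2_3 : Nat := (nat_lit 0x500000000000040000000000000000000000000000000000000030000000000000000000000000200000000000000000000000001000000000000000000000000000000000000000)
noncomputable def OL2_3 : Nat := (nat_lit 0x160028003800500060004)
noncomputable def AL2_4 : Nat := (nat_lit 0x3ffe)
noncomputable def A42_4 : Nat := (nat_lit 0x26)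
noncomputable def IX2_4 : Nat := (nat_lit 0x200000000000000000000000000000000000000100000000000000000000000000)
noncomputable def OL2_4 : Nat := (nat_lit 0x500040004)
noncomputable def AL2_5 : Nat := (nat_lit 0)
noncomputable def A42_5 : Nat := (nat_lit 0)
noncomputable def IX2_5 : Nat := (nat_lit 0)
noncomputable def OL2_5 : Nat := (nat_lit 0)
noncomputable def AL2_6 : Nat := (nat_lit 0xd800d0b800c00180234002)
noncomputable def A42_6 : Nat := (nat_lit 0x5800003800c00180200002)
noncomputable def IX2_6 : Nat := (nat_lit 0xb0000000000000000000000000a000000000000900000000000000000000000000000000000000000000000000000000000000000000000000000000000000000000000000000000000000000000000000000000000000000000000000000000000000000000000000000000000000000000000000000000000000000000000000000000000000000000000000000000000000000000000000000000000000000000080000000000007000000000000600000000000000000000000000000000000000000000000000000000000000000000000000000000000000000000000000000000000000000000000000000000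000000000000000000000000000500000000000040000000000000000000000000000000000000000000000000000000000000000000000000000000000000000000000000000000000000000000000000000000000000000000000000000000000000000000000000000000000000300000000000020000000000000000000000000000000000000000000000000000000000000000000000000000000000000000000000000000000000000000000000000000000001000000000000000000000000000000000000000000000000000000000000000000000000000000000000000000000000000000000000000000000000000000000000000000000000000000000000000000000000000000000000000000000000000000000000000000000000000000000000000000000000000000000000000000000000000000000)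
noncomputable def OL2_6 : Nat := (nat_lit 0x2b005400a600f401e003b005e00b8010001f002a0004)
noncomputable def TL2 : Tl := (Tl.cons (Tr.mk AL2_0 A42_0 IX2_0 OL2_0) (Tl.cons (Tr.mk AL2_1 A42_1 IX2_1 OL2_1) (Tl.cons (Tr.mk AL2_2 A42_2 IX2_2 OL2_2) (Tl.cons (Tr.mk AL2_3 A42_3 IX2_3 OL2_3) (Tl.cons (Tr.mk AL2_4 A42_4 IX2_4 OL2_4) (Tl.cons (Tr.mk AL2_5 A42_5 IX2_5 OL2_5) (Tl.cons (Tr.mk AL2_6 A42_6 IX2_6 OL2_6) Tl.nil)))))))
noncomputable def ZL2_0 : Zl := (Zl.cons (nat_lit 0) (nat_lit 0) (nat_lit 0) (Zl.cons (nat_lit 0) (nat_lit 0) (nat_lit 0) (Zl.cons (nat_lit 0) (nat_lit 0) (nat_lit 1) (Zl.cons (nat_lit 4) (nat_lit 1) (nat_lit 2) (Zl.cons (nat_lit 0) (nat_lit 0) (nat_lit 0) (Zl.cons (nat_lit 0) (nat_lit 0) (nat_lit 0) (Zl.cons (nat_lit 1) (nat_lit 3) (nat_lit 1) Zl.nil)))))))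
noncomputable def ZZ2 : ZZ := (ZZ.cons ZL2_0 ZZ.nil)
def wf0_0 : wfC (nat_lit 46) (nat_lit 2) C0_0 = true := by decide +kernel
def pl0_0 : plCk (nat_lit 46) (nat_lit 2) (nat_lit 11) (nat_lit 0) (nat_lit 0) (nat_lit 7) (nat_lit 7) (nat_lit 4) (nat_lit 0) nl0 CL0 = true := by decide +kernel
def wf0_1 : wfC (nat_lit 46) (nat_lit 2) C0_1 = true := by decide +kernel
def pl0_1 : plCk (nat_lit 46) (nat_lit 2) (nat_lit 11) (nat_lit 0) (nat_lit 0) (nat_lit 7) (nat_lit 7) (nat_lit 4) (nat_lit 1) nl0 CL0 = true := by decide +kernel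
def wf0_2 : wfC (nat_lit 46) (nat_lit 2) C0_2 = true := by decide +kernel
def pl0_2 : plCk (nat_lit 46) (nat_lit 2) (nat_lit 11) (nat_lit 0) (nat_lit 0) (nat_lit 7) (nat_lit 7) (nat_lit 4) (nat_lit 2) nl0 CL0 = true := by decide +kernel
def wf0_3 : wfC (nat_lit 46) (nat_lit 2) C0_3 = true := by decide +kernel
def pl0_3 : plCk (nat_lit 46) (nat_lit 2) (nat_lit 11) (nat_lit 0) (nat_lit 0) (nat_lit 7) (nat_lit 7) (nat_lit 4) (nat_lit 3) nl0 CL0 = true := by decide +kernel
def wf0_4 : wfC (nat_lit 46) (nat_lit 2) C0_4 = true := by decide +kernel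
def pl0_4 : plCk (nat_lit 46) (nat_lit 2) (nat_lit 11) (nat_lit 0) (nat_lit 0) (nat_lit 7) (nat_lit 7) (nat_lit 4) (nat_lit 4) nl0 CL0 = true := by decide +kernel
def wf0_5 : wfC (nat_lit 46) (nat_lit 2) C0_5 = true := by decide +kernel
def pl0_5 : plCk (nat_lit 46) (nat_lit 2) (nat_lit 11) (nat_lit 0) (nat_lit 0) (nat_lit 7) (nat_lit 7) (nat_lit 4) (nat_lit 5) nl0 CL0 = true := by decide +kernel
def wf0_6 : wfC (nat_lit 46) (nat_lit 2) C0_6 = true := by decide +kernel
def pl0_6 : plCk (nat_lit 46) (nat_lit 2) (nat_lit 11) (nat_lit 0) (nat_lit 0) (nat_lit 7) (nat_lit 7) (nat_lit 4) (nat_lit 6) nl0 CL0 = true := by decide +kernel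
def ti0_0 : tileCk (nat_lit 46) (nat_lit 2) (nat_lit 1) (nat_lit 1) (nat_lit 53) (nat_lit 11) (nat_lit 7) ZL0_0 CL0 = true := by decide +kernel
def zl0_0 : zlOK (nat_lit 53) ZL0_0 = true := by decide +kernel
def tc0_0 : tiCov (nat_lit 1) (nat_lit 0) ZZ0 C0_0 = true := by decide +kernel
def tc0_1 : tiCov (nat_lit 1) (nat_lit 1) ZZ0 C0_1 = true := by decide +kernel
def tc0_2 : tiCov (nat_lit 1) (nat_lit 2) ZZ0 C0_2 = true := by decide +kernel
def tc0_3 : tiCov (nat_lit 1) (nat_lit 3) ZZ0 C0_3 = true := by decide +kernel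
def tc0_4 : tiCov (nat_lit 1) (nat_lit 4) ZZ0 C0_4 = true := by decide +kernel
def tc0_5 : tiCov (nat_lit 1) (nat_lit 5) ZZ0 C0_5 = true := by decide +kernel
def tc0_6 : tiCov (nat_lit 1) (nat_lit 6) ZZ0 C0_6 = true := by decide +kernel
def wf1_0 : wfC (nat_lit 23) (nat_lit 2) C1_0 = true := by decide +kernel
def rf1_0 : rfCk (nat_lit 46) (nat_lit 2) (nat_lit 23) (nat_lit 2) (nat_lit 9) (nat_lit 0) (nat_lit 0) TL1 CL0 CL1 = true := by decide +kernel
def st1_0_0 : starCk (nat_lit 23) (nat_lit 2) (nat_lit 1) (nat_lit 1) (nat_lit 1) (nat_lit 0) (nat_lit 16) C1_0 = true := by decide +kernel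
def sc1_0 : stCov (nat_lit 1) (nat_lit 0) (Rl.cons (nat_lit 0) (nat_lit 1) Rl.nil) C1_0 = true := by decide +kernel
def wf1_1 : wfC (nat_lit 23) (nat_lit 2) C1_1 = true := by decide +kernel
def rf1_1 : rfCk (nat_lit 46) (nat_lit 2) (nat_lit 23) (nat_lit 2) (nat_lit 9) (nat_lit 0) (nat_lit 1) TL1 CL0 CL1 = true := by decide +kernel
def sc1_1 : stCov (nat_lit 0) (nat_lit 0) Rl.nil C1_1 = true := by decide +kernel
def wf1_2 : wfC (nat_lit 23) (nat_lit 2) C1_2 = true := by decide +kernel
def rf1_2 : rfCk (nat_lit 46) (nat_lit 2) (nat_lit 23) (nat_lit 2) (nat_lit 9) (nat_lit 0) (nat_lit 2) TL1 CL0 CL1 = true := by decide +kernel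
def st1_2_0 : starCk (nat_lit 23) (nat_lit 2) (nat_lit 1) (nat_lit 1) (nat_lit 3) (nat_lit 7) (nat_lit 1) C1_2 = true := by decide +kernel
def sc1_2 : stCov (nat_lit 0) (nat_lit 7) (Rl.cons (nat_lit 7) (nat_lit 3) Rl.nil) C1_2 = true := by decide +kernel
def wf1_3 : wfC (nat_lit 23) (nat_lit 2) C1_3 = true := by decide +kernel
def rf1_3 : rfCk (nat_lit 46) (nat_lit 2) (nat_lit 23) (nat_lit 2) (nat_lit 9) (nat_lit 0) (nat_lit 3) TL1 CL0 CL1 = true := by decide +kernel
def st1_3_0 : starCk (nat_lit 23) (nat_lit 2) (nat_lit 1) (nat_lit 1) (nat_lit 5) (nat_lit 9) (nat_lit 16) C1_3 = true := by decide +kernel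
def sc1_3 : stCov (nat_lit 1) (nat_lit 9) (Rl.cons (nat_lit 9) (nat_lit 5) Rl.nil) C1_3 = true := by decide +kernel
def wf1_4 : wfC (nat_lit 23) (nat_lit 2) C1_4 = true := by decide +kernel
def rf1_4 : rfCk (nat_lit 46) (nat_lit 2) (nat_lit 23) (nat_lit 2) (nat_lit 9) (nat_lit 0) (nat_lit 4) TL1 CL0 CL1 = true := by decide +kernel
def st1_4_0 : starCk (nat_lit 23) (nat_lit 2) (nat_lit 1) (nat_lit 1) (nat_lit 4) (nat_lit 7) (nat_lit 256) C1_4 = true := by decide +kernel
def sc1_4 : stCov (nat_lit 2) (nat_lit 7) (Rl.cons (nat_lit 7) (nat_lit 4) Rl.nil) C1_4 = true := by decide +kernel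
def wf1_5 : wfC (nat_lit 23) (nat_lit 2) C1_5 = true := by decide +kernel
def rf1_5 : rfCk (nat_lit 46) (nat_lit 2) (nat_lit 23) (nat_lit 2) (nat_lit 9) (nat_lit 0) (nat_lit 5) TL1 CL0 CL1 = true := by decide +kernel
def sc1_5 : stCov (nat_lit 1) (nat_lit 0) Rl.nil C1_5 = true := by decide +kernel
def wf1_6 : wfC (nat_lit 23) (nat_lit 2) C1_6 = true := by decide +kernel
def rf1_6 : rfCk (nat_lit 46) (nat_lit 2) (nat_lit 23) (nat_lit 2) (nat_lit 9) (nat_lit 0) (nat_lit 6) TL1 CL0 CL1 = true := by decide +kernel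
def st1_6_0 : starCk (nat_lit 23) (nat_lit 2) (nat_lit 1) (nat_lit 1) (nat_lit 8) (nat_lit 20) (nat_lit 16) C1_6 = true := by decide +kernel
def sc1_6 : stCov (nat_lit 1) (nat_lit 20) (Rl.cons (nat_lit 20) (nat_lit 8) Rl.nil) C1_6 = true := by decide +kernel
def wf2_2 : wfC (nat_lit 4) (nat_lit 3) C2_2 = true := by decide +kernel
def rf2_2 : rfCk (nat_lit 23) (nat_lit 2) (nat_lit 4) (nat_lit 3) (nat_lit 9) (nat_lit 0) (nat_lit 2) TL2 CL1 CL2 = true := by decide +kernel
def sc2_2 : stCov (nat_lit 0) (nat_lit 0) Rl.nil C2_2 = true := by decide +kernel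
def wf2_3 : wfC (nat_lit 4) (nat_lit 3) C2_3 = true := by decide +kernel
def rf2_3 : rfCk (nat_lit 23) (nat_lit 2) (nat_lit 4) (nat_lit 3) (nat_lit 9) (nat_lit 0) (nat_lit 3) TL2 CL1 CL2 = true := by decide +kernel
def st2_3_0 : starCk (nat_lit 4) (nat_lit 3) (nat_lit 1) (nat_lit 1) (nat_lit 2) (nat_lit 4) (nat_lit 16) C2_3 = true := by decide +kernel
def sc2_3 : stCov (nat_lit 1) (nat_lit 4) (Rl.cons (nat_lit 4) (nat_lit 2) Rl.nil) C2_3 = true := by decide +kernel
def wf2_4 : wfC (nat_lit 4) (nat_lit 3) C2_4 = true := by decide +kernel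
def rf2_4 : rfCk (nat_lit 23) (nat_lit 2) (nat_lit 4) (nat_lit 3) (nat_lit 9) (nat_lit 0) (nat_lit 4) TL2 CL1 CL2 = true := by decide +kernel
def sc2_4 : stCov (nat_lit 2) (nat_lit 0) Rl.nil C2_4 = true := by decide +kernel
def wf2_6 : wfC (nat_lit 4) (nat_lit 3) C2_6 = true := by decide +kernel
def rf2_6 : rfCk (nat_lit 23) (nat_lit 2) (nat_lit 4) (nat_lit 3) (nat_lit 9) (nat_lit 0) (nat_lit 6) TL2 CL1 CL2 = true := by decide +kernel
def sc2_6 : stCov (nat_lit 0) (nat_lit 0) Rl.nil C2_6 = true := by decide +kernel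
def ti2_0 : tileCk (nat_lit 4) (nat_lit 3) (nat_lit 2) (nat_lit 1) (nat_lit 4) (nat_lit 11) (nat_lit 7) ZL2_0 CL2 = true := by decide +kernel
def zl2_0 : zlOK (nat_lit 4) ZL2_0 = true := by decide +kernel
def tc2_2 : tiCov (nat_lit 1) (nat_lit 2) ZZ2 C2_2 = true := by decide +kernel
def tc2_3 : tiCov (nat_lit 1) (nat_lit 3) ZZ2 C2_3 = true := by decide +kernel
def tc2_4 : tiCov (nat_lit 1) (nat_lit 4) ZZ2 C2_4 = true := by decide +kernel
def tc2_6 : tiCov (nat_lit 1) (nat_lit 6) ZZ2 C2_6 = true := by decide +kernel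
def de2_2 : deadCk (nat_lit 4) (nat_lit 3) C2_2 = true := by decide +kernel
def de2_3 : deadCk (nat_lit 4) (nat_lit 3) C2_3 = true := by decide +kernel
def de2_4 : deadCk (nat_lit 4) (nat_lit 3) C2_4 = true := by decide +kernel
def de2_6 : deadCk (nat_lit 4) (nat_lit 3) C2_6 = true := by decide +kernel
def sc0_0 : stCov (nat_lit 1) (nat_lit 0) (Rl.cons (nat_lit 0) (nat_lit 21) Rl.nil) C0_0 = true := by decide +kernel
def sc0_1 : stCov (nat_lit 0) (nat_lit 0) (Rl.cons (nat_lit 0) (nat_lit 25) Rl.nil) C0_1 = true := by decide +kernel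
def sc0_2 : stCov (nat_lit 0) (nat_lit 0) (Rl.cons (nat_lit 0) (nat_lit 66) Rl.nil) C0_2 = true := by decide +kernel
def sc0_3 : stCov (nat_lit 0) (nat_lit 0) (Rl.cons (nat_lit 0) (nat_lit 30) Rl.nil) C0_3 = true := by decide +kernel
def sc0_4 : stCov (nat_lit 0) (nat_lit 0) (Rl.cons (nat_lit 0) (nat_lit 28) Rl.nil) C0_4 = true := by decide +kernel
def sc0_5 : stCov (nat_lit 0) (nat_lit 0) (Rl.cons (nat_lit 0) (nat_lit 18) Rl.nil) C0_5 = true := by decide +kernel
def sc0_6 : stCov (nat_lit 0) (nat_lit 0) (Rl.cons (nat_lit 0) (nat_lit 210) Rl.nil) C0_6 = true := by decide +kernel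
def zl1_0 : zlOK (nat_lit 102) ZL1_0 = true := by decide +kernel
def tc1_0 : tiCov (nat_lit 1) (nat_lit 0) ZZ1 C1_0 = true := by decide +kernel
def tc1_1 : tiCov (nat_lit 1) (nat_lit 1) ZZ1 C1_1 = true := by decide +kernel
def tc1_2 : tiCov (nat_lit 1) (nat_lit 2) ZZ1 C1_2 = true := by decide +kernel
def tc1_3 : tiCov (nat_lit 1) (nat_lit 3) ZZ1 C1_3 = true := by decide +kernel
def tc1_4 : tiCov (nat_lit 1) (nat_lit 4) ZZ1 C1_4 = true := by decide +kernel
def tc1_5 : tiCov (nat_lit 1) (nat_lit 5) ZZ1 C1_5 = true := by decide +kernel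
def tc1_6 : tiCov (nat_lit 1) (nat_lit 6) ZZ1 C1_6 = true := by decide +kernel
def wf2_0 : wfC (nat_lit 4) (nat_lit 3) C2_0 = true := by decide +kernel
def wf2_1 : wfC (nat_lit 4) (nat_lit 3) C2_1 = true := by decide +kernel
def wf2_5 : wfC (nat_lit 4) (nat_lit 3) C2_5 = true := by decide +kernel
def rf2_0 : rfCk (nat_lit 23) (nat_lit 2) (nat_lit 4) (nat_lit 3) (nat_lit 9) (nat_lit 0) (nat_lit 0) TL2 CL1 CL2 = true := by decide +kernel
def rf2_1 : rfCk (nat_lit 23) (nat_lit 2) (nat_lit 4) (nat_lit 3) (nat_lit 9) (nat_lit 0) (nat_lit 1) TL2 CL1 CL2 = true := by decide +kernel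
def rf2_5 : rfCk (nat_lit 23) (nat_lit 2) (nat_lit 4) (nat_lit 3) (nat_lit 9) (nat_lit 0) (nat_lit 5) TL2 CL1 CL2 = true := by decide +kernel
def sc2_0 : stCov (nat_lit 1) (nat_lit 0) Rl.nil C2_0 = true := by decide +kernel
def sc2_1 : stCov (nat_lit 0) (nat_lit 0) Rl.nil C2_1 = true := by decide +kernel
def sc2_5 : stCov (nat_lit 0) (nat_lit 0) Rl.nil C2_5 = true := by decide +kernel
def tc2_0 : tiCov (nat_lit 1) (nat_lit 0) ZZ2 C2_0 = true := by decide +kernel
def tc2_1 : tiCov (nat_lit 1) (nat_lit 1) ZZ2 C2_1 = true := by decide +kernel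
def tc2_5 : tiCov (nat_lit 1) (nat_lit 5) ZZ2 C2_5 = true := by decide +kernel
def de2_0 : deadCk (nat_lit 4) (nat_lit 3) C2_0 = true := by decide +kernel
def de2_1 : deadCk (nat_lit 4) (nat_lit 3) C2_1 = true := by decide +kernel
def de2_5 : deadCk (nat_lit 4) (nat_lit 3) C2_5 = true := by decide +kernel

end Pool.Agent.NNr.R11_4_6_7
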